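import Pool.Agent.Q233.FT.I

/-!
# MP_689e73_mp: the Thomas-Fermi energy is continuously differentiable in the positions of point nuclei
-/

set_option autoImplicit false
open MeasureTheory Set Filter Topology
open scoped RealInnerProductSpace

namespace Pool.Agent.Results.MP_689e73_mp.ForceTheorem

/-- three dimensional Euclidean space -/
abbrev E3 := EuclideanSpace ℝ (Fin 3)

/-- nonnegative densities in `L¹ ∩ L^{5/3}` -/
def Admissible (ρ : E3 → ℝ) : Prop :=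
  (∀ x, 0 ≤ ρ x) ∧ Integrable ρ ∧ Integrable (fun x => ρ x ^ (5/3 : ℝ))

/-- pairwise distinct nuclear positions -/
def Omega (k : ℕ) : Set (Fin k → E3) := {R | ∀ i j, i ≠ j → R i ≠ R j}

/-- the nuclear repulsion `U` -/
noncomputable def U {k : ℕ} (z : Fin k → ℝ) (R : Fin k → E3) : ℝ :=
  ∑ i, ∑ j ∈ Finset.Ioi i, z i * z j / ‖R i - R j‖

/-- the Thomas-Fermi functional, nuclear repulsion included -/
noncomputable def functional {k : ℕ} (γ : ℝ) (z : Fin k → ℝ) (R : Fin k → E3) (ρ : E3 → ℝ) : ℝ :=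
  3/5 * γ * (∫ x, ρ x ^ (5/3 : ℝ)) - (∫ x, (∑ j, z j / ‖x - R j‖) * ρ x)
    + 1/2 * (∫ x, ∫ y, ρ x * ρ y / ‖x - y‖) + U z R

/-- the Thomas-Fermi energy `E` for the electron number `lam` -/
noncomputable def energy {k : ℕ} (γ : ℝ) (z : Fin k → ℝ) (lam : ℝ) (R : Fin k → E3) : ℝ :=
  sInf {E | ∃ ρ, Admissible ρ ∧ ∫ x, ρ x = lam ∧ functional γ z R ρ = E}

/-- the electronic energy `e = E - U` as a function of the positions -/
noncomputable def elEnergy {k : ℕ} (γ : ℝ) (z : Fin k → ℝ) (lam : ℝ) (R : Fin k → E3) : ℝ :=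
  energy γ z lam R - U z R

/-- `ρ` is a minimiser with electron number `lam` -/
def IsTFDensity {k : ℕ} (γ : ℝ) (z : Fin k → ℝ) (lam : ℝ) (R : Fin k → E3) (ρ : E3 → ℝ) : Prop :=
  Admissible ρ ∧ ∫ x, ρ x = lam ∧ ∀ σ, Admissible σ → ∫ x, σ x = lam → functional γ z R ρ ≤ functional γ z R σ

/-- the potential `ψ = |x|⁻¹ * ρ` -/
noncomputable def psi (ρ : E3 → ℝ) (x : E3) : ℝ := ∫ y, ρ y / ‖x - y‖

/-- the force integral outside the ball of radius `a` around `p` -/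
noncomputable def cutForce (ρ : E3 → ℝ) (p : E3) (a : ℝ) : E3 :=
  ∫ x in {x | a < ‖x - p‖}, (ρ x / ‖x - p‖ ^ 3) • (x - p)

/-- the regularised potential `ψ(x) + (16π/3) (c/γ)^{3/2} |x - p|^{1/2}` near a nucleus of charge `c` at `p` -/
noncomputable def regPot (γ c : ℝ) (ρ : E3 → ℝ) (p x : E3) : ℝ :=
  psi ρ x + 16 * Real.pi / 3 * (c / γ) ^ (3/2 : ℝ) * √‖x - p‖

section Proofs
open Pool.Agent.Helper557.TFP Pool.Agent.H9R2.TF Pool.Agent.Q233.TFDil Pool.Agent.Q233.TFIon Pool.Agent.Q233.FT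

lemma functional_congr {k : ℕ} (γ : ℝ) (z : Fin k → ℝ) (R : Fin k → E3) {f g : E3 → ℝ} (h : f =ᵐ[volume] g) :
    functional γ z R f = functional γ z R g := by
  unfold functional
  have e1 : ∫ x, f x ^ (5/3 : ℝ) = ∫ x, g x ^ (5/3 : ℝ) := by
    refine integral_congr_ae ?_
    filter_upwards [h] with x hx
    rw [hx]
  have e2 : ∫ x, (∑ i, z i / ‖x - R i‖) * f x = ∫ x, (∑ i, z i / ‖x - R i‖) * g x := by
    refine integral_congr_ae ?_
    filter_upwards [h] with x hx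
    rw [hx]
  have e3 : (∫ x, (∫ y, f x * f y / ‖x - y‖)) = ∫ x, (∫ y, g x * g y / ‖x - y‖) := by
    refine integral_congr_ae ?_
    filter_upwards [h] with x hx
    refine integral_congr_ae ?_
    filter_upwards [h] with y hy
    rw [hx, hy]
  rw [e1, e2, e3]

lemma functional_dl {k : ℕ} {γ : ℝ} (hγ : 0 < γ) (z : Fin k → ℝ) (R : Fin k → E3) {ρ : E3 → ℝ} (h : ∀ x, 0 ≤ ρ x) :
    functional γ z (fun j => γ • R j) (dl γ ρ) = γ⁻¹ * (EF z R ρ + U z R) := by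
  have h1 := dl_EF hγ z R h
  have hU : U z (fun j => γ • R j) = γ⁻¹ * U z R := by
    unfold U
    rw [Finset.mul_sum]
    refine Finset.sum_congr rfl (fun i _ => ?_)
    rw [Finset.mul_sum]
    refine Finset.sum_congr rfl (fun j _ => ?_)
    rw [← smul_sub, norm_smul, Real.norm_of_nonneg hγ.le, div_eq_mul_inv, mul_inv, div_eq_mul_inv]
    ring
  have hk : ∫ x, dl γ ρ x ^ (5/3 : ℝ) = (γ ^ 2)⁻¹ * ∫ x, ρ x ^ (5/3 : ℝ) := by
    simp only [dl_pow hγ h]
    rw [integral_const_mul, int_inv hγ (fun y => ρ y ^ (5/3 : ℝ))]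
    field_simp
  unfold functional
  rw [TF_E1_dbl, hU]
  unfold EF at h1 ⊢
  have h2 : -(∫ x, VV z (fun j => γ • R j) x * dl γ ρ x) + 1/2 * (∫ x, dl γ ρ x * pot (dl γ ρ) x)
      = γ⁻¹ * (-(∫ x, VV z R x * ρ x) + 1/2 * ∫ x, ρ x * pot ρ x) := by
    rw [hk] at h1
    linarith
  have h3 : ∫ x, (∑ j, z j / ‖x - γ • R j‖) * dl γ ρ x = ∫ x, VV z (fun j => γ • R j) x * dl γ ρ x := rfl
  rw [h3, hk]
  have h4 : 3/5 * γ * ((γ ^ 2)⁻¹ * ∫ x, ρ x ^ (5/3 : ℝ)) = γ⁻¹ * (3/5 * ∫ x, ρ x ^ (5/3 : ℝ)) := by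
    field_simp
  rw [h4]
  linarith

lemma dl_dl {γ : ℝ} (hγ : 0 < γ) (ρ : E3 → ℝ) : dl γ (dl γ⁻¹ ρ) = ρ := by
  funext x
  unfold dl
  rw [smul_smul, inv_inv, mul_inv_cancel₀ hγ.ne', one_smul]
  field_simp

lemma smul_inv_fun {k : ℕ} {γ : ℝ} (hγ : 0 < γ) (R : Fin k → E3) : (fun j => γ • (γ⁻¹ • R j)) = R := by
  funext j
  rw [smul_smul, mul_inv_cancel₀ hγ.ne', one_smul]

/-- the functional in the scaled variables -/
lemma functional_scaled {k : ℕ} {γ : ℝ} (hγ : 0 < γ) (z : Fin k → ℝ) (R : Fin k → E3) {ρ : E3 → ℝ} (h : Adm ρ) :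
    functional γ z R ρ = γ⁻¹ * (EF z (fun j => γ⁻¹ • R j) (dl γ⁻¹ ρ) + U z (fun j => γ⁻¹ • R j)) := by
  have hgi : 0 < γ⁻¹ := by positivity
  have h1 := functional_dl hγ z (fun j => γ⁻¹ • R j) (dl_adm hgi h).2.1
  rw [smul_inv_fun hγ, dl_dl hγ] at h1
  exact h1

lemma adm_mod {ρ : E3 → ℝ} (h : Admissible ρ) : ∃ σ, Adm σ ∧ ρ =ᵐ[volume] σ := AA_mod h

lemma adm_admissible {ρ : E3 → ℝ} (h : Adm ρ) : Admissible ρ := ⟨h.2.1, h.2.2.1, h.2.2.2⟩

lemma U_scaled {k : ℕ} {γ : ℝ} (hγ : 0 < γ) (z : Fin k → ℝ) (R : Fin k → E3) : U z (fun j => γ⁻¹ • R j) = γ * U z R := by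
  unfold U
  rw [Finset.mul_sum]
  refine Finset.sum_congr rfl (fun i _ => ?_)
  rw [Finset.mul_sum]
  refine Finset.sum_congr rfl (fun j _ => ?_)
  rw [← smul_sub, norm_smul, Real.norm_of_nonneg (by positivity), div_eq_mul_inv, mul_inv, inv_inv, div_eq_mul_inv]
  ring

/-- the scaled ion is a minimiser -/
lemma ion_min {k : ℕ} {γ : ℝ} (hγ : 0 < γ) {z : Fin k → ℝ} (hz : ∀ j, 0 ≤ z j) (R : Fin k → E3) {lam : ℝ} (hl : 0 < lam)
    (hlZ : lam ≤ ∑ j, z j) : IsTFDensity γ z lam R (dl γ (rhoI z (fun j => γ⁻¹ • R j) lam)) := by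
  obtain ⟨Φ, hΦ, hEL, hmass⟩ := rhoI_ion hz (fun j => γ⁻¹ • R j) hl hlZ
  have hgi : 0 < γ⁻¹ := by positivity
  have ha := adm_of_nice hEL.nice hEL.nonneg
  refine ⟨adm_admissible (dl_adm hγ ha), by rw [dl_mass hγ, hmass], fun σ hσ hσm => ?_⟩
  obtain ⟨σ', h1, h2⟩ := adm_mod hσ
  have hm : ∫ x, dl γ⁻¹ σ' x = lam := by
    rw [dl_mass hgi, ← hσm]; exact (integral_congr_ae h2).symm
  have h3 := EF_min hEL (dl_adm hgi h1) (hm.trans hmass.symm)
  rw [functional_congr γ z R h2, functional_scaled hγ z R h1]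
  have h4 := functional_dl hγ z (fun j => γ⁻¹ • R j) hEL.nonneg
  rw [smul_inv_fun hγ] at h4
  rw [h4]
  exact mul_le_mul_of_nonneg_left (by linarith) hgi.le

lemma energy_eq {k : ℕ} {γ : ℝ} (hγ : 0 < γ) {z : Fin k → ℝ} (hz : ∀ j, 0 ≤ z j) (R : Fin k → E3) {lam : ℝ} (hl : 0 < lam)
    (hlZ : lam ≤ ∑ j, z j) : elEnergy γ z lam R = γ⁻¹ * el z (fun j => γ⁻¹ • R j) lam := by
  obtain ⟨h1, h2, h3⟩ := ion_min hγ hz R hl hlZ
  have h4 : energy γ z lam R = functional γ z R (dl γ (rhoI z (fun j => γ⁻¹ • R j) lam)) := by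
    apply le_antisymm
    · refine csInf_le ⟨functional γ z R (dl γ (rhoI z (fun j => γ⁻¹ • R j) lam)), ?_⟩ ⟨_, h1, h2, rfl⟩
      rintro E ⟨σ, s1, s2, rfl⟩
      exact h3 σ s1 s2
    · refine le_csInf ⟨_, _, h1, h2, rfl⟩ ?_
      rintro E ⟨σ, s1, s2, rfl⟩
      exact h3 σ s1 s2
  obtain ⟨Φ, hΦ, hEL, hmass⟩ := rhoI_ion hz (fun j => γ⁻¹ • R j) hl hlZ
  have h5 := functional_dl hγ z (fun j => γ⁻¹ • R j) hEL.nonneg
  rw [smul_inv_fun hγ] at h5
  have h6 := el_eq hz hEL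
  rw [hmass] at h6
  unfold elEnergy
  rw [h4, h5, U_scaled hγ, h6]
  field_simp
  ring

lemma ion_unique {k : ℕ} {z : Fin k → ℝ} {R : Fin k → E3} {lam : ℝ} {ρ₁ ρ₂ : E3 → ℝ} (h₁ : Ion z R lam ρ₁) (h₂ : Ion z R lam ρ₂) :
    ρ₁ =ᵐ[volume] ρ₂ := by
  obtain ⟨Φ₁, -, e₁, m₁⟩ := h₁
  obtain ⟨Φ₂, -, e₂, m₂⟩ := h₂
  have key : ∀ {Φ₁ Φ₂ : ℝ} {ρ₁ ρ₂ : E3 → ℝ}, ELs z R Φ₁ ρ₁ → ELs z R Φ₂ ρ₂ → ∫ x, ρ₁ x = ∫ x, ρ₂ x → Φ₂ ≤ Φ₁ → ρ₁ =ᵐ[volume] ρ₂ := by
    intro Φ₁ Φ₂ ρ₁ ρ₂ e₁ e₂ hm h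
    obtain ⟨-, b⟩ := EL_mono e₁ e₂ h
    have h1 : ∫ x, (ρ₂ x - ρ₁ x) = 0 := by
      rw [integral_sub e₂.nice.2.1 e₁.nice.2.1, hm, sub_self]
    have h2 := (integral_eq_zero_iff_of_nonneg (fun x => sub_nonneg.2 (b x)) (e₂.nice.2.1.sub e₁.nice.2.1)).1 h1
    filter_upwards [h2] with x hx
    have : ρ₂ x - ρ₁ x = 0 := hx
    linarith
  rcases le_total Φ₂ Φ₁ with h | h
  · exact key e₁ e₂ (m₁.trans m₂.symm) h
  · exact (key e₂ e₁ (m₂.trans m₁.symm) h).symm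

lemma smul_qmp {c : ℝ} (hc : c ≠ 0) : Measure.QuasiMeasurePreserving (fun x : E3 => c • x) volume volume := by
  refine ⟨measurable_const_smul c, ?_⟩
  rw [Measure.map_addHaar_smul volume hc]
  exact Measure.smul_absolutelyContinuous

lemma dl_ae {c : ℝ} (hc : 0 < c) {f g : E3 → ℝ} (h : f =ᵐ[volume] g) : dl c f =ᵐ[volume] dl c g := by
  have h1 := (smul_qmp (c := c⁻¹) (by positivity)).ae_eq_comp h
  filter_upwards [h1] with x hx
  unfold dl
  simp only [Function.comp_apply] at hx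
  rw [hx]

/-- every TF density is, in the scaled variables, the ion -/
lemma tf_ae {k : ℕ} {γ : ℝ} (hγ : 0 < γ) {z : Fin k → ℝ} (hz : ∀ j, 0 ≤ z j) (R : Fin k → E3) {lam : ℝ} (hl : 0 < lam)
    (hlZ : lam ≤ ∑ j, z j) {ρ : E3 → ℝ} (h : IsTFDensity γ z lam R ρ) : dl γ⁻¹ ρ =ᵐ[volume] rhoI z (fun j => γ⁻¹ • R j) lam := by
  obtain ⟨h1, h2, h3⟩ := h
  have hgi : 0 < γ⁻¹ := by positivity
  obtain ⟨σ, s1, s2⟩ := adm_mod h1
  have hσm : ∫ x, σ x = lam := by rw [← h2]; exact (integral_congr_ae s2).symm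
  have ha := dl_adm hgi s1
  have hm : ∫ x, dl γ⁻¹ σ x = lam := by rw [dl_mass hgi, hσm]
  obtain ⟨Φ, hΦ, ρ', hρ', hae⟩ := min_EL (z := z) (R := fun j => γ⁻¹ • R j) ha (fun τ hτ hτm => by
    have t1 := h3 (dl γ τ) (adm_admissible (dl_adm hγ hτ)) (by rw [dl_mass hγ, hτm, hm])
    rw [functional_congr γ z R s2, functional_scaled hγ z R s1] at t1
    have t2 := functional_dl hγ z (fun j => γ⁻¹ • R j) hτ.2.1
    rw [smul_inv_fun hγ] at t2
    rw [t2] at t1
    have := le_of_mul_le_mul_left t1 hgi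
    linarith) (by rw [hm]; exact hl)
  have hion : Ion z (fun j => γ⁻¹ • R j) lam ρ' := ⟨Φ, hΦ, hρ', by rw [← hm]; exact (integral_congr_ae hae).symm⟩
  exact (dl_ae hgi s2).trans (hae.trans (ion_unique hion (rhoI_ion hz _ hl hlZ)))

lemma int_scale {F : Type*} [NormedAddCommGroup F] [NormedSpace ℝ F] {γ : ℝ} (hγ : 0 < γ) (f : E3 → F) :
    ∫ x, f x = γ ^ 3 • ∫ y : E3, f (γ • y) := by
  rw [Measure.integral_comp_smul volume f γ]
  have h3 : Module.finrank ℝ E3 = 3 := by simp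
  rw [h3, abs_of_pos (by positivity), smul_smul, mul_inv_cancel₀ (by positivity), one_smul]

lemma psi_scale {γ : ℝ} (hγ : 0 < γ) (ρ : E3 → ℝ) (x : E3) : psi ρ x = γ⁻¹ * pot (dl γ⁻¹ ρ) (γ⁻¹ • x) := by
  unfold psi pot
  rw [int_scale hγ, smul_eq_mul, ← integral_const_mul, ← integral_const_mul]
  congr 1
  funext y
  unfold dl
  have e : ‖x - γ • y‖ = γ * ‖γ⁻¹ • x - y‖ := by
    have : x - γ • y = γ • (γ⁻¹ • x - y) := by rw [smul_sub, smul_smul, mul_inv_cancel₀ hγ.ne', one_smul]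
    rw [this, norm_smul, Real.norm_of_nonneg hγ.le]
  rw [e, inv_inv]
  field_simp

lemma cut_scale {γ : ℝ} (hγ : 0 < γ) (ρ : E3 → ℝ) (p : E3) (a : ℝ) :
    cutForce ρ p a = (γ ^ 2)⁻¹ • Tr (dl γ⁻¹ ρ) (γ⁻¹ • p) (γ⁻¹ * a) := by
  have hm : ∀ (q : E3) (b : ℝ), MeasurableSet {y : E3 | b < ‖y - q‖} := fun q b =>
    measurableSet_lt measurable_const (measurable_id.sub measurable_const).norm
  unfold cutForce Tr
  rw [← integral_indicator (hm p a), ← integral_indicator (hm _ _), int_scale hγ, ← integral_smul, ← integral_smul]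
  congr 1
  funext y
  have e0 : γ • y - p = γ • (y - γ⁻¹ • p) := by rw [smul_sub, smul_smul, mul_inv_cancel₀ hγ.ne', one_smul]
  have e : ‖γ • y - p‖ = γ * ‖y - γ⁻¹ • p‖ := by rw [e0, norm_smul, Real.norm_of_nonneg hγ.le]
  by_cases h : a < ‖γ • y - p‖
  · have h' : γ⁻¹ * a < ‖y - γ⁻¹ • p‖ := by rw [e] at h; rw [inv_mul_lt_iff₀ hγ]; exact h
    rw [indicator_of_mem (show γ • y ∈ {y : E3 | a < ‖y - p‖} from h), indicator_of_mem (show y ∈ {y : E3 | γ⁻¹ * a < ‖y - γ⁻¹ • p‖} from h')]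
    rw [e, e0]
    unfold dl
    rw [smul_smul, smul_smul, smul_smul, inv_inv]
    congr 1
    field_simp
  · have h' : ¬ γ⁻¹ * a < ‖y - γ⁻¹ • p‖ := by rw [e] at h; rw [inv_mul_lt_iff₀ hγ]; exact h
    rw [indicator_of_notMem (show γ • y ∉ {y : E3 | a < ‖y - p‖} from h),
      indicator_of_notMem (show y ∉ {y : E3 | γ⁻¹ * a < ‖y - γ⁻¹ • p‖} from h'), smul_zero, smul_zero]

lemma Tr_congr {f g : E3 → ℝ} (h : f =ᵐ[volume] g) (p : E3) (a : ℝ) : Tr f p a = Tr g p a := by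
  unfold Tr
  refine integral_congr_ae (ae_restrict_of_ae ?_)
  filter_upwards [h] with x hx
  rw [hx]

lemma reg_scale {γ : ℝ} (hγ : 0 < γ) {c : ℝ} (hc : 0 ≤ c) (ρ : E3 → ℝ) (p x : E3) :
    regPot γ c ρ p x = γ⁻¹ * (pot (dl γ⁻¹ ρ) (γ⁻¹ • x) + 16 * Real.pi / 3 * c ^ (3/2:ℝ) * √‖γ⁻¹ • x - γ⁻¹ • p‖) := by
  unfold regPot
  rw [psi_scale hγ, ← smul_sub, norm_smul, Real.norm_of_nonneg (by positivity), Real.sqrt_mul (by positivity),
    Real.div_rpow hc hγ.le]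
  have e : γ ^ (3/2:ℝ) = γ * √γ := by
    rw [show (3/2:ℝ) = 1 + 1/2 by norm_num, Real.rpow_add hγ, Real.rpow_one, ← Real.sqrt_eq_rpow]
  have hs : 0 < √γ := Real.sqrt_pos.2 hγ
  rw [e, Real.sqrt_inv]
  field_simp

end Proofs

open Pool.Agent.Helper557.TFP Pool.Agent.H9R2.TF Pool.Agent.Q233.TFDil Pool.Agent.Q233.TFIon Pool.Agent.Q233.FT in
/-- **The Thomas-Fermi force theorem for point nuclei.**  For every `γ > 0`, all nuclear charges `z_i > 0` and every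
electron number `0 < lam ≤ Z`: the electronic energy `e` is continuously differentiable on the set of pairwise
distinct positions; for all such positions a TF density exists, and there are vectors `F_i` with `∇_{R_i} e = -z_i F_i`
such that for every TF density `ρ` the cut off force integrals tend to `F_i` and the gradient of
`ψ + (16π/3) (z_i/γ)^{3/2} |x - R_i|^{1/2}` (which exists for `x ≠ R_i` near `R_i`) tends to `F_i` as `x → R_i`. -/
theorem result (k : ℕ) (γ : ℝ) (z : Fin k → ℝ) (lam : ℝ) (hγ : 0 < γ) (hz : ∀ i, 0 < z i) (hl : 0 < lam)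
    (hlZ : lam ≤ ∑ i, z i) :
    ContDiffOn ℝ 1 (elEnergy γ z lam) (Omega k) ∧
    ∀ R ∈ Omega k, (∃ ρ, IsTFDensity γ z lam R ρ) ∧ ∃ F : Fin k → E3,
      (∀ i, HasGradientAt (fun r => elEnergy γ z lam (Function.update R i r)) (-(z i • F i)) (R i)) ∧
      ∀ ρ, IsTFDensity γ z lam R ρ → ∀ i,
        Tendsto (cutForce ρ (R i)) (𝓝[>] 0) (𝓝 (F i)) ∧
        (∀ᶠ x in 𝓝[≠] (R i), DifferentiableAt ℝ (regPot γ (z i) ρ (R i)) x) ∧
        Tendsto (gradient (regPot γ (z i) ρ (R i))) (𝓝[≠] (R i)) (𝓝 (F i)) := by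
  have hz' : ∀ i, 0 ≤ z i := fun i => (hz i).le
  have hgi : 0 < γ⁻¹ := by positivity
  set S : (Fin k → E3) → (Fin k → E3) := fun R j => γ⁻¹ • R j with hS
  have hSd : ContDiff ℝ 1 S := by
    rw [contDiff_pi]
    intro j
    exact (contDiff_apply ℝ E3 j).const_smul γ⁻¹
  have hSm : MapsTo S (Omega k) (Om k) := by
    intro R hR i j hij h
    exact hR i j hij (smul_right_injective E3 hgi.ne' h)
  have hen : elEnergy γ z lam = fun R => γ⁻¹ * el z (S R) lam := funext (fun R => energy_eq hγ hz' R hl hlZ)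
  refine ⟨?_, fun R hR => ⟨⟨_, ion_min hγ hz' R hl hlZ⟩, ?_⟩⟩
  · rw [hen]
    exact contDiffOn_const.mul ((el_contDiff hz' hl hlZ).comp hSd.contDiffOn hSm)
  · refine ⟨fun i => (γ ^ 2)⁻¹ • frc z lam (S R) i, fun i => ?_, fun ρ hρ i => ?_⟩
    · have hd := el_deriv hz' hl hlZ (hSm hR)
      -- the path
      have hup : HasFDerivAt (fun r : E3 => S (Function.update R i r))
          (ContinuousLinearMap.pi (fun j => if j = i then γ⁻¹ • ContinuousLinearMap.id ℝ E3 else 0)) (R i) := by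
        rw [hasFDerivAt_pi]
        intro j
        by_cases h : j = i
        · subst h
          simp only [Function.update_self, if_true]
          exact (hasFDerivAt_id (R j)).const_smul γ⁻¹
        · simp only [Function.update_of_ne h, if_neg h]
          exact hasFDerivAt_const _ _
      have hR' : S (Function.update R i (R i)) = S R := by rw [Function.update_eq_self]
      rw [← hR'] at hd
      have hc := (hd.comp (R i) hup).const_mul γ⁻¹
      rw [hR'] at hc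
      rw [hasGradientAt_iff_hasFDerivAt, hen]
      refine hc.congr_fderiv ?_
      ext v
      simp only [_root_.smul_apply, ContinuousLinearMap.comp_apply, fL_apply, ContinuousLinearMap.pi_apply,
        smul_eq_mul, InnerProductSpace.toDual_apply_apply]
      rw [Finset.sum_eq_single i]
      · rw [if_pos rfl]
        simp only [_root_.smul_apply, ContinuousLinearMap.id_apply]
        rw [inner_neg_left, real_inner_smul_left, real_inner_smul_left, real_inner_smul_right]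
        field_simp
      · intro j _ hj
        rw [if_neg hj]
        simp
      · intro h
        exact absurd (Finset.mem_univ i) h
    · have hae := tf_ae hγ hz' R hl hlZ hρ
      obtain ⟨δ, h1, h2, h3⟩ := exists_sep (hSm hR)
      have hion := rhoI_ion hz' (S R) hl hlZ
      have hTr := frc_Tr hz' hl hlZ (hSm hR) i
      obtain ⟨g1, g2⟩ := grad_lim hz' hl hion h1 h2 h3 i
      rw [← frc_eq hz' hl hlZ h1 h2 h3 i] at g2
      set Θ : E3 → ℝ := fun x => pot (rhoI z (S R) lam) x + 16 * Real.pi / 3 * z i ^ (3/2:ℝ) * √‖x - S R i‖ with hΘ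
      have hreg : regPot γ (z i) ρ (R i) = fun x => γ⁻¹ * Θ (γ⁻¹ • x) := by
        funext x
        rw [reg_scale hγ (hz' i)]
        simp only [hΘ]
        rw [pot_congr hae]
      have hpt : Tendsto (fun x : E3 => γ⁻¹ • x) (𝓝[≠] (R i)) (𝓝[≠] (S R i)) := by
        refine tendsto_nhdsWithin_of_tendsto_nhds_of_eventually_within _ ?_ ?_
        · exact ((continuous_const_smul γ⁻¹).tendsto (R i)).mono_left nhdsWithin_le_nhds
        · filter_upwards [self_mem_nhdsWithin] with x hx h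
          exact hx (smul_right_injective E3 hgi.ne' h)
      have hder : ∀ x, DifferentiableAt ℝ Θ (γ⁻¹ • x) → HasGradientAt (regPot γ (z i) ρ (R i)) ((γ ^ 2)⁻¹ • gradient Θ (γ⁻¹ • x)) x := by
        intro x hx
        rw [hreg, hasGradientAt_iff_hasFDerivAt]
        have a1 := hx.hasGradientAt.hasFDerivAt
        have a2 : HasFDerivAt (fun x : E3 => γ⁻¹ • x) (γ⁻¹ • ContinuousLinearMap.id ℝ E3) x := (hasFDerivAt_id x).const_smul γ⁻¹
        refine ((a1.comp x a2).const_mul γ⁻¹).congr_fderiv ?_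
        ext v
        simp only [_root_.smul_apply, ContinuousLinearMap.comp_apply, InnerProductSpace.toDual_apply_apply,
          ContinuousLinearMap.id_apply, smul_eq_mul]
        rw [real_inner_smul_left, real_inner_smul_right]
        field_simp
      have hev : ∀ᶠ x in 𝓝[≠] (R i), DifferentiableAt ℝ Θ (γ⁻¹ • x) := hpt.eventually g1
      refine ⟨?_, ?_, ?_⟩
      · have ha : Tendsto (fun a : ℝ => γ⁻¹ * a) (𝓝[>] 0) (𝓝[>] 0) := by
          refine tendsto_nhdsWithin_of_tendsto_nhds_of_eventually_within _ ?_ ?_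
          · have : Tendsto (fun a : ℝ => γ⁻¹ * a) (𝓝 0) (𝓝 (γ⁻¹ * 0)) := (continuous_const.mul continuous_id).tendsto 0
            rw [mul_zero] at this
            exact this.mono_left nhdsWithin_le_nhds
          · filter_upwards [self_mem_nhdsWithin] with a ha
            exact mul_pos hgi ha
        have := (hTr.comp ha).const_smul ((γ ^ 2)⁻¹)
        refine this.congr (fun a => ?_)
        rw [cut_scale hγ]
        rw [Tr_congr hae]
        rfl
      · filter_upwards [hev] with x hx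
        exact (hder x hx).differentiableAt
      · have := (g2.comp hpt).const_smul ((γ ^ 2)⁻¹)
        refine this.congr' ?_
        filter_upwards [hev] with x hx
        exact (hder x hx).gradient.symm

end Pool.Agent.Results.MP_689e73_mp.ForceTheorem
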